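import Mathlib

/-!
# The cell lemma

A uniformly random table `T : I → Bool` is predicted on the cells of `E` by one of `|P|` patterns,
the pattern may depend on `T`: on average at most `5/8 |E| + log |P|` cells are predicted correctly.
-/

set_option autoImplicit false

namespace Pool.Agent.Helper33.UD

open Finset

theorem exp_five_eighths : (1 + Real.exp 1) / 2 ≤ Real.exp (5 / 8) := by
  have h1 : Real.exp 1 < 2.7182818286 := Real.exp_one_lt_d9
  have h2 : 2.7182818283 < Real.exp 1 := Real.exp_one_gt_d9
  have h3 : Real.exp (5 / 8) ^ 8 = Real.exp 1 ^ 5 := by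
    rw [← Real.exp_nat_mul, ← Real.exp_nat_mul]
    norm_num
  have h4 : ((1 + Real.exp 1) / 2) ^ 8 ≤ Real.exp (5 / 8) ^ 8 := by
    rw [h3]
    calc ((1 + Real.exp 1) / 2) ^ 8 ≤ ((1 + 2.7182818286) / 2 : ℝ) ^ 8 := by
          have : 0 < Real.exp 1 := Real.exp_pos 1
          gcongr
      _ ≤ (2.7182818283 : ℝ) ^ 5 := by norm_num
      _ ≤ Real.exp 1 ^ 5 := by gcongr
  exact le_of_pow_le_pow_left₀ (by norm_num) (Real.exp_pos _).le h4

variable {I P : Type*} [Fintype I] [DecidableEq I] [Fintype P]

theorem sum_exp_le (g : I → Bool) (E : Finset I) :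
    ∑ T : I → Bool, Real.exp ((E.filter fun e => T e = g e).card : ℝ) ≤
      Fintype.card (I → Bool) * Real.exp (5 / 8 * E.card) := by
  have h1 : ∀ T : I → Bool, Real.exp ((E.filter fun e => T e = g e).card : ℝ) =
      ∏ i, (if i ∈ E then (if T i = g i then Real.exp 1 else 1) else 1) := by
    intro T
    rw [prod_ite_mem, univ_inter, prod_ite, prod_const, prod_const_one, mul_one,
      ← Real.exp_nat_mul, mul_one]
  have h2 : ∑ T : I → Bool, ∏ i, (if i ∈ E then (if T i = g i then Real.exp 1 else 1) else 1) =
      ∏ i, ∑ b : Bool, (if i ∈ E then (if b = g i then Real.exp 1 else 1) else 1) := by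
    rw [prod_univ_sum, Fintype.piFinset_univ]
  have h3 : ∀ i : I, ∑ b : Bool, (if i ∈ E then (if b = g i then Real.exp 1 else 1) else 1) ≤
      2 * (if i ∈ E then Real.exp (5 / 8) else 1) := by
    intro i
    by_cases hi : i ∈ E
    · simp only [hi, if_true, Fintype.sum_bool]
      have := exp_five_eighths
      cases g i <;> simp <;> linarith
    · simp [hi]
  calc ∑ T : I → Bool, Real.exp ((E.filter fun e => T e = g e).card : ℝ)
      = ∏ i, ∑ b : Bool, (if i ∈ E then (if b = g i then Real.exp 1 else 1) else 1) := by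
        rw [← h2]
        exact sum_congr rfl fun T _ => h1 T
    _ ≤ ∏ i : I, (2 * (if i ∈ E then Real.exp (5 / 8) else 1)) := by
        refine prod_le_prod (fun i _ => sum_nonneg fun b _ => ?_) fun i _ => h3 i
        split_ifs <;> positivity
    _ = Fintype.card (I → Bool) * Real.exp (5 / 8 * E.card) := by
        rw [prod_mul_distrib, prod_const, card_univ, Fintype.card_fun, Fintype.card_bool,
          prod_ite_mem, univ_inter, prod_const, ← Real.exp_nat_mul, mul_comm (E.card : ℝ)]
        push_cast
        rfl

/-- **The cell lemma.** -/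
theorem cell (φ : (I → Bool) → P) (f : P → I → Bool) (E : Finset I) :
    ∑ T : I → Bool, ((E.filter fun e => T e = f (φ T) e).card : ℝ) ≤
      Fintype.card (I → Bool) * (5 / 8 * E.card + Real.log (Fintype.card P)) := by
  classical
  set c : ℝ := 5 / 8 * E.card + Real.log (Fintype.card P) with hc
  have hP : (0 : ℝ) < Fintype.card P := by
    have : Nonempty P := ⟨φ fun _ => false⟩
    exact_mod_cast Fintype.card_pos
  have h1 : ∑ T : I → Bool, Real.exp ((E.filter fun e => T e = f (φ T) e).card : ℝ) ≤
      Fintype.card (I → Bool) * Real.exp c := by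
    calc ∑ T : I → Bool, Real.exp ((E.filter fun e => T e = f (φ T) e).card : ℝ)
        ≤ ∑ T : I → Bool, ∑ q : P, Real.exp ((E.filter fun e => T e = f q e).card : ℝ) :=
          sum_le_sum fun T _ => single_le_sum
            (f := fun q : P => Real.exp ((E.filter fun e => T e = f q e).card : ℝ))
            (fun q _ => (Real.exp_pos _).le) (mem_univ (φ T))
      _ = ∑ q : P, ∑ T : I → Bool, Real.exp ((E.filter fun e => T e = f q e).card : ℝ) :=
          sum_comm
      _ ≤ ∑ _q : P, (Fintype.card (I → Bool) : ℝ) * Real.exp (5 / 8 * E.card) :=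
          sum_le_sum fun q _ => sum_exp_le (f q) E
      _ = Fintype.card (I → Bool) * Real.exp c := by
          rw [sum_const, card_univ, nsmul_eq_mul, hc, Real.exp_add, Real.exp_log hP]
          ring
  have h2 : ∀ T : I → Bool, ((E.filter fun e => T e = f (φ T) e).card : ℝ) ≤
      c - 1 + Real.exp ((E.filter fun e => T e = f (φ T) e).card : ℝ) * Real.exp (-c) := by
    intro T
    rw [← Real.exp_add]
    have := Real.add_one_le_exp (((E.filter fun e => T e = f (φ T) e).card : ℝ) + -c)
    linarith
  calc ∑ T : I → Bool, ((E.filter fun e => T e = f (φ T) e).card : ℝ)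
      ≤ ∑ T : I → Bool, (c - 1 +
        Real.exp ((E.filter fun e => T e = f (φ T) e).card : ℝ) * Real.exp (-c)) :=
        sum_le_sum fun T _ => h2 T
    _ = Fintype.card (I → Bool) * (c - 1) +
        (∑ T : I → Bool, Real.exp ((E.filter fun e => T e = f (φ T) e).card : ℝ)) *
          Real.exp (-c) := by
        rw [sum_add_distrib, sum_const, card_univ, nsmul_eq_mul, sum_mul]
    _ ≤ Fintype.card (I → Bool) * (c - 1) +
        (Fintype.card (I → Bool) * Real.exp c) * Real.exp (-c) := by
        gcongr
    _ = Fintype.card (I → Bool) * c := by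
        rw [mul_assoc, ← Real.exp_add, add_neg_cancel, Real.exp_zero]
        ring

end Pool.Agent.Helper33.UD
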