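import Mathlib

/-!
# Counting form of the chain rule

A label which determines the bits `t j` one after the other (given what has been seen before) takes
many values, unless some `t j` is biased given what has been seen before.
-/

set_option autoImplicit false

namespace Pool.Agent.Helper33.UD

open Finset

/-- The sign of a bit. -/
def sg (b : Bool) : ℝ := if b then -1 else 1

theorem abs_sg (b : Bool) : |sg b| = 1 := by cases b <;> simp [sg]

section Bias

variable {Ω : Type*} [Fintype Ω] {α : Type*}

open Classical in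
/-- The sum over the classes of `Y` of the absolute value of the sum of the signs of `t`. -/
noncomputable def bias (Y : Ω → α) (t : Ω → Bool) : ℝ :=
  ∑ y ∈ univ.image Y, |∑ ω with Y ω = y, sg (t ω)|

theorem bias_nonneg (Y : Ω → α) (t : Ω → Bool) : 0 ≤ bias Y t :=
  sum_nonneg fun _ _ => abs_nonneg _

open Classical in
/-- A finer map has a larger bias. -/
theorem bias_mono {β : Type*} (Y : Ω → α) (Z : Ω → β) (t : Ω → Bool)
    (h : ∀ ω ω', Z ω = Z ω' → Y ω = Y ω') : bias Y t ≤ bias Z t := by
  unfold bias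
  have key : ∀ y ∈ univ.image Y, |∑ ω with Y ω = y, sg (t ω)| ≤
      ∑ z ∈ (univ.filter fun ω => Y ω = y).image Z, |∑ ω with Z ω = z, sg (t ω)| := by
    intro y _
    have h1 : ∑ ω with Y ω = y, sg (t ω) =
        ∑ z ∈ (univ.filter fun ω => Y ω = y).image Z, ∑ ω with Z ω = z, sg (t ω) := by
      rw [← sum_fiberwise_of_maps_to (g := Z) (t := (univ.filter fun ω => Y ω = y).image Z)
        (fun ω hω => mem_image_of_mem Z hω)]
      refine sum_congr rfl fun z hz => ?_
      obtain ⟨ω0, hω0, hz0⟩ := mem_image.mp hz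
      have hy0 := (mem_filter.mp hω0).2
      refine sum_congr ?_ fun _ _ => rfl
      ext ω
      simp only [mem_filter, mem_univ, true_and]
      constructor
      · exact fun h2 => h2.2
      · exact fun h2 => ⟨(h ω ω0 (h2.trans hz0.symm)).trans hy0, h2⟩
    rw [h1]
    exact abs_sum_le_sum_abs _ _
  refine (sum_le_sum key).trans ?_
  rw [← sum_biUnion]
  · refine sum_le_sum_of_subset_of_nonneg ?_ fun _ _ _ => abs_nonneg _
    intro z hz
    obtain ⟨y, _, hz⟩ := mem_biUnion.mp hz
    obtain ⟨ω, _, hz⟩ := mem_image.mp hz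
    exact hz ▸ mem_image_of_mem Z (mem_univ ω)
  · intro y _ y' _ hne
    rw [Function.onFun, disjoint_left]
    intro z hz hz'
    obtain ⟨ω, hω, hz⟩ := mem_image.mp hz
    obtain ⟨ω', hω', hz'⟩ := mem_image.mp hz'
    exact hne ((mem_filter.mp hω).2.symm.trans
      ((h ω ω' (hz.trans hz'.symm)).trans (mem_filter.mp hω').2))

open Classical in
/-- The number of points at which `t` is predictable is at most twice the bias. -/
theorem card_bad_le (Y : Ω → α) (t : Ω → Bool) :
    ((univ.filter fun ω => 3 * (univ.filter fun ω' => Y ω' = Y ω).card <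
      4 * (univ.filter fun ω' => Y ω' = Y ω ∧ t ω' = t ω).card).card : ℝ) ≤ 2 * bias Y t := by
  set B := univ.filter fun ω => 3 * (univ.filter fun ω' => Y ω' = Y ω).card <
      4 * (univ.filter fun ω' => Y ω' = Y ω ∧ t ω' = t ω).card with hB
  have h1 : (B.card : ℝ) = ∑ y ∈ univ.image Y, ((B.filter fun ω => Y ω = y).card : ℝ) := by
    rw [← Nat.cast_sum]
    exact_mod_cast card_eq_sum_card_fiberwise
      (fun ω _ => mem_image_of_mem Y (mem_univ ω))
  rw [h1, bias, mul_sum]
  refine sum_le_sum fun y _ => ?_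
  by_cases h0 : (B.filter fun ω => Y ω = y).Nonempty
  swap
  · rw [not_nonempty_iff_eq_empty.mp h0]
    simp
  obtain ⟨ω1, hω1⟩ := h0
  have hb1 := (mem_filter.mp (mem_filter.mp hω1).1).2
  have hy1 : Y ω1 = y := (mem_filter.mp hω1).2
  subst hy1
  set C := univ.filter fun ω' => Y ω' = Y ω1 with hC
  set G := univ.filter fun ω' => Y ω' = Y ω1 ∧ t ω' = t ω1 with hG
  have h2 : ((B.filter fun ω => Y ω = Y ω1).card : ℝ) ≤ C.card := by
    exact_mod_cast card_le_card fun ω hω => mem_filter.mpr ⟨mem_univ _, (mem_filter.mp hω).2⟩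
  have h3 : ∑ ω ∈ C, sg (t ω) = sg (t ω1) * (2 * G.card - C.card) := by
    have h4 : ∀ ω ∈ C, sg (t ω) = sg (t ω1) * (2 * (if t ω = t ω1 then 1 else 0) - 1) := by
      intro ω _
      by_cases h : t ω = t ω1
      · simp [h]; ring
      · have : t ω = !(t ω1) := by
          cases h5 : t ω <;> cases h6 : t ω1 <;> simp_all
        rw [this]
        cases t ω1 <;> simp [sg]
    rw [sum_congr rfl h4, ← mul_sum, sum_sub_distrib, ← mul_sum]
    congr 2
    · congr 1
      rw [← sum_filter, sum_const, nsmul_eq_mul, mul_one]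
      congr 2
      ext ω
      simp [hC, hG]
    · simp
  have h5 : |∑ ω ∈ C, sg (t ω)| = |2 * (G.card : ℝ) - C.card| := by
    rw [h3, abs_mul, abs_sg, one_mul]
  rw [h5]
  have h6 : (3 : ℝ) * C.card < 4 * G.card := by exact_mod_cast hb1
  have h7 := le_abs_self (2 * (G.card : ℝ) - C.card)
  have h8 : (0 : ℝ) ≤ C.card := Nat.cast_nonneg _
  linarith

end Bias

section Filtration

variable {Ω : Type*} [Fintype Ω] {J : Type*} [Fintype J] [LinearOrder J] {α : J → Type*} {L : ℕ}

open Classical in
/-- Counting form of the chain rule: `Y j` is what is known before the bit `t j` is read; the label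
`lab` and `Y j` determine `t j`. -/
theorem chain_rule (Y : (j : J) → Ω → α j) (t : J → Ω → Bool) (lab : Ω → Fin L)
    (hdet : ∀ j' j, j' < j → ∀ ω ω', Y j ω = Y j ω' → Y j' ω = Y j' ω' ∧ t j' ω = t j' ω')
    (hlab : ∀ j ω ω', lab ω = lab ω' → Y j ω = Y j ω' → t j ω = t j ω') :
    (Fintype.card Ω : ℝ) ≤ L * (3 / 4) ^ Fintype.card J * Fintype.card Ω +
      2 * ∑ j, bias (Y j) (t j) := by
  let good : J → Ω → Prop := fun j ω =>
    4 * (univ.filter fun ω' => Y j ω' = Y j ω ∧ t j ω' = t j ω).card ≤
      3 * (univ.filter fun ω' => Y j ω' = Y j ω).card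
  let E : Fin L → Finset J → Finset Ω := fun a s => univ.filter fun ω =>
    ∀ j ∈ s, good j ω ∧ ∃ ω0, lab ω0 = a ∧ Y j ω0 = Y j ω ∧ t j ω0 = t j ω
  have hE : ∀ a s, ((E a s).card : ℝ) ≤ (3 / 4) ^ s.card * Fintype.card Ω := by
    intro a s
    induction s using Finset.induction_on_max with
    | empty =>
      simp only [card_empty, pow_zero, one_mul]
      exact_mod_cast card_le_univ _
    | insert j s hs ih =>
      have hj : j ∉ s := fun h => lt_irrefl _ (hs j h)
      rw [card_insert_of_notMem hj, pow_succ]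
      have hcl : ∀ ω ω', ω ∈ E a s → Y j ω' = Y j ω → ω' ∈ E a s := by
        intro ω ω' hω hY
        refine mem_filter.mpr ⟨mem_univ _, fun j' hj' => ?_⟩
        obtain ⟨h1, ω0, h2, h3, h4⟩ := (mem_filter.mp hω).2 j' hj'
        obtain ⟨h5, h6⟩ := hdet j' j (hs j' hj') ω' ω hY
        refine ⟨?_, ω0, h2, h3.trans h5.symm, h4.trans h6.symm⟩
        show 4 * _ ≤ 3 * _
        rw [h5, h6]
        exact h1
      have h7 : ((E a (insert j s)).card : ℝ) ≤ 3 / 4 * (E a s).card := by
        have h8 : ((E a (insert j s)).card : ℝ) = ∑ y ∈ univ.image (Y j),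
            (((E a (insert j s)).filter fun ω => Y j ω = y).card : ℝ) := by
          rw [← Nat.cast_sum]
          exact_mod_cast card_eq_sum_card_fiberwise
            (fun ω _ => mem_image_of_mem (Y j) (mem_univ ω))
        have h9 : ((E a s).card : ℝ) = ∑ y ∈ univ.image (Y j),
            (((E a s).filter fun ω => Y j ω = y).card : ℝ) := by
          rw [← Nat.cast_sum]
          exact_mod_cast card_eq_sum_card_fiberwise
            (fun ω _ => mem_image_of_mem (Y j) (mem_univ ω))
        rw [h8, h9, mul_sum]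
        refine sum_le_sum fun y _ => ?_
        by_cases h0 : ((E a (insert j s)).filter fun ω => Y j ω = y).Nonempty
        swap
        · rw [not_nonempty_iff_eq_empty.mp h0]
          simp only [card_empty, Nat.cast_zero]
          positivity
        obtain ⟨ω1, hω1⟩ := h0
        have hy1 : Y j ω1 = y := (mem_filter.mp hω1).2
        subst hy1
        have hE1 := (mem_filter.mp (mem_filter.mp hω1).1).2
        obtain ⟨hg, ω0, ha0, hY0, ht0⟩ := hE1 j (mem_insert_self _ _)
        have hs1 : ω1 ∈ E a s :=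
          mem_filter.mpr ⟨mem_univ _, fun j' hj' => hE1 j' (mem_insert_of_mem hj')⟩
        have h10 : ((E a (insert j s)).filter fun ω => Y j ω = Y j ω1).card ≤
            (univ.filter fun ω' => Y j ω' = Y j ω1 ∧ t j ω' = t j ω1).card := by
          refine card_le_card fun ω hω => ?_
          have hY : Y j ω = Y j ω1 := (mem_filter.mp hω).2
          obtain ⟨-, ω2, ha2, hY2, ht2⟩ :=
            (mem_filter.mp (mem_filter.mp hω).1).2 j (mem_insert_self _ _)
          refine mem_filter.mpr ⟨mem_univ _, hY, ?_⟩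
          rw [← ht2, ← ht0]
          exact hlab j ω2 ω0 (ha2.trans ha0.symm) (hY2.trans (hY.trans hY0.symm))
        have h11 : (univ.filter fun ω' => Y j ω' = Y j ω1).card ≤
            ((E a s).filter fun ω => Y j ω = Y j ω1).card := by
          refine card_le_card fun ω hω => ?_
          have hY : Y j ω = Y j ω1 := (mem_filter.mp hω).2
          exact mem_filter.mpr ⟨hcl ω1 ω hs1 hY, hY⟩
        have hg' : 4 * (univ.filter fun ω' => Y j ω' = Y j ω1 ∧ t j ω' = t j ω1).card ≤
            3 * (univ.filter fun ω' => Y j ω' = Y j ω1).card := hg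
        have h12 : 4 * ((E a (insert j s)).filter fun ω => Y j ω = Y j ω1).card ≤
            3 * ((E a s).filter fun ω => Y j ω = Y j ω1).card := by omega
        have h13 : (4 : ℝ) * ((E a (insert j s)).filter fun ω => Y j ω = Y j ω1).card ≤
            3 * ((E a s).filter fun ω => Y j ω = Y j ω1).card := by exact_mod_cast h12
        linarith
      calc ((E a (insert j s)).card : ℝ) ≤ 3 / 4 * (E a s).card := h7
        _ ≤ 3 / 4 * ((3 / 4) ^ s.card * Fintype.card Ω) := by gcongr
        _ = (3 / 4) ^ s.card * (3 / 4) * Fintype.card Ω := by ring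
  let Good : Finset Ω := univ.filter fun ω => ∀ j, good j ω
  let Bad : J → Finset Ω := fun j => univ.filter fun ω => ¬ good j ω
  have h1 : (Good.card : ℝ) ≤ L * (3 / 4) ^ Fintype.card J * Fintype.card Ω := by
    have h2 : Good ⊆ univ.biUnion fun a => E a univ := by
      intro ω hω
      refine mem_biUnion.mpr ⟨lab ω, mem_univ _, mem_filter.mpr ⟨mem_univ _, fun j _ => ?_⟩⟩
      exact ⟨(mem_filter.mp hω).2 j, ω, rfl, rfl, rfl⟩
    calc (Good.card : ℝ) ≤ ((univ.biUnion fun a => E a univ).card : ℝ) := by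
          exact_mod_cast card_le_card h2
      _ ≤ ((∑ a, (E a univ).card : ℕ) : ℝ) := by exact_mod_cast card_biUnion_le
      _ = ∑ a, ((E a univ).card : ℝ) := by push_cast; rfl
      _ ≤ ∑ _a : Fin L, (3 / 4) ^ Fintype.card J * (Fintype.card Ω : ℝ) :=
          sum_le_sum fun a _ => hE a univ
      _ = L * (3 / 4) ^ Fintype.card J * Fintype.card Ω := by
          rw [sum_const, card_univ, Fintype.card_fin, nsmul_eq_mul, mul_assoc]
  have h2 : ∀ j, ((Bad j).card : ℝ) ≤ 2 * bias (Y j) (t j) := by
    intro j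
    refine le_trans ?_ (card_bad_le (Y j) (t j))
    have : Bad j = univ.filter fun ω => 3 * (univ.filter fun ω' => Y j ω' = Y j ω).card <
      4 * (univ.filter fun ω' => Y j ω' = Y j ω ∧ t j ω' = t j ω).card := by
      ext ω
      simp [Bad, good]
    rw [this]
  have h3 : (univ : Finset Ω) ⊆ Good ∪ univ.biUnion Bad := by
    intro ω _
    by_cases h : ∀ j, good j ω
    · exact mem_union_left _ (mem_filter.mpr ⟨mem_univ _, h⟩)
    · push Not at h
      obtain ⟨j, hj⟩ := h
      exact mem_union_right _ (mem_biUnion.mpr ⟨j, mem_univ _, mem_filter.mpr ⟨mem_univ _, hj⟩⟩)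
  calc (Fintype.card Ω : ℝ) = ((univ : Finset Ω).card : ℝ) := by rw [card_univ]
    _ ≤ ((Good ∪ univ.biUnion Bad).card : ℝ) := by exact_mod_cast card_le_card h3
    _ ≤ (Good.card : ℝ) + ((univ.biUnion Bad).card : ℝ) := by exact_mod_cast card_union_le _ _
    _ ≤ (Good.card : ℝ) + ∑ j, ((Bad j).card : ℝ) := by
        gcongr
        exact_mod_cast card_biUnion_le
    _ ≤ L * (3 / 4) ^ Fintype.card J * Fintype.card Ω + ∑ j, 2 * bias (Y j) (t j) :=
        add_le_add h1 (sum_le_sum fun j _ => h2 j)
    _ = _ := by rw [mul_sum]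

end Filtration

end Pool.Agent.Helper33.UD
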